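import Pool.Agent.H948_Strat.Main
import Pool.Agent.H948_Strat.Ho
import Pool.Agent.H948_Strat.HoTensor
import Pool.Agent.H948_Strat.Bous
import Pool.Agent.H948_Strat.Flz
import Pool.Agent.H948_Strat.Fl
import Pool.Agent.H948_Strat.Fl05
import Pool.Agent.H948_Strat.Small
import Pool.Agent.H948_Strat.Prods
import Pool.Agent.H948_Strat.Tree
import Pool.Agent.H948_Strat.Tower
import Pool.Agent.H948_Strat.IhomLoc
import Pool.Agent.H948_Strat.Agf
import Pool.Agent.H948_Strat.H
import Pool.Agent.H948_Strat.Seq
import Pool.Agent.H948_Strat.Nil
import Pool.Agent.H948_Strat.Balmer

/-!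
# Stratified tensor triangulated categories are costratified

Every rigidly-compactly generated tensor triangulated category with weakly noetherian spectrum which is
stratified is costratified.
-/

open CategoryTheory Limits MonoidalCategory Pretriangulated

universe v u

namespace H948

variable {C : Type u} [Category.{v} C] [Preadditive C] [HasZeroObject C] [HasShift C ℤ]
  [∀ n : ℤ, (shiftFunctor C n).Additive] [Pretriangulated C] [IsTriangulated C]
  [MonoidalCategory C] [HasCoproducts.{v} C]

/-- All consequences of rigid-compact generation used in the proof. -/
theorem rpkg_of (h : RigCptGen C) : RPkg C := by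
  have hg : CptGen C := h.gen
  have hb : S_bous C := bous coprodTri (hoAPI C)
  exact
    { small := small hg hb flz
      gen := gen_of hg
      all := all_of hb hg
      prods := prods hg coprodTri (hoAPI C) hb
      unit := h.unit
      rigid := h.rigid }

end H948

open H948

/-- **Stratification implies costratification.** Let `C` be a rigidly-compactly generated tensor triangulated
category with weakly noetherian spectrum. If `C` is stratified, then `C` is costratified. -/
theorem Pool.Agent.Results.MP_320227_al.StratImpliesCostrat.result
    (C : Type u) [Category.{v} C] [Preadditive C] [HasZeroObject C] [HasShift C ℤ]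
    [∀ n : ℤ, (shiftFunctor C n).Additive] [Pretriangulated C] [IsTriangulated C]
    [MonoidalCategory C] [SymmetricCategory C] [MonoidalClosed C] [TensorExact C]
    [HasCoproducts.{v} C]
    (hC : RigCptGen C) (hw : WeaklyNoetherian C) (hs : Stratified C) : Costratified C := by
  have hR : RPkg C := rpkg_of hC
  have : HasProducts.{v} C := hR.prods
  have hb : S_bous C := bous coprodTri (hoAPI C)
  have hct : S_cptTri C := cptTri
  have hl : S_local C := localAPI hR
  have hz : S_z1 C := z1 hR.small
  have htree : S_tree C := tree (hoAPI C) hR.small coprodTri hz
  have htower : S_tower C := tower hR hz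
  have hH : S_H C := propH hR flz hl hct
  have hseq : S_seq C := seq hR agf hH hl
  have h5 : S_fl05 C := fl05 hR (fl hR.all)
  have hnil : S_nil C := nil hR (hoAPI C) hoTensor h5 hl
  have hcore : S_core C := core hR htree htower hseq hnil hl
  have hcpt : S_cptIn C := cptIn_thick hR
  have hidem : S_idem C := idem hR hcpt
  have hgo : S_gorth C := gorth hR hct hidem (prime hR) (cover hR)
  exact main hcore hl hidem hgo (finLocEx hR hb) (ihomLoc hR) hcpt hw hs
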